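import Pool.Agent.Y817.WK.Fin
import Pool.Agent.Y246.WK.Arith
import Pool.Agent.Y171.WK.Derive
import Pool.Agent.Y986.WK.Pde
import Pool.Agent.Y986.WK.Tri

/-!
# MP_f5ceca_al: the word problem is undecidable in every variety which contains `W_K`

An encoding of the negative solution of Hilbert's tenth problem by linear differential equations gives
finitely many relations (with integral coefficients) and an undecidable set of words which vanish,
both in all associative algebras with these relations and in a triangular algebra which satisfies the
two identities `x[y,z][t,u]v = 0` and `x[y,z,t]u = 0`.
-/

set_option autoImplicit false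

namespace Pool.Agent.Results.MP_f5ceca_al.UndecidableAboveW

open Pool.Agent.Y817.WK

/-- There are a natural number `k` and a finite set `R` of noncommutative polynomials with integral
coefficients (and without constant term) in `k` letters such that, for every field `K` of
characteristic zero, every coding `ν` of the elements of `K` by natural numbers and every variety of
associative `K`-algebras containing `W_K` (given by a set `Id` of identities), the word problem of the
algebra presented by `R` in this variety is undecidable. -/
theorem result :
    ∃ (k : ℕ) (R : List (List (ℤ × Fin k × List (Fin k)))),
      ∀ (K : Type) [Field K] [CharZero K] (ν : ℕ → K), Function.Surjective ν →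
        ∀ Id : Set (List (K × ℕ × List ℕ)), ContainsW K Id →
          ¬ DecidableWP ν Id (R.map fun r => r.map fun t => ((t.1 : K), t.2)) :=
  Pool.Agent.Y817.WK.main Pool.Agent.Y246.WK.t Pool.Agent.Y171.WK.t
    (Pool.Agent.Y817.WK.model Pool.Agent.Y986.WK.Tri.t Pool.Agent.Y986.WK.t)

end Pool.Agent.Results.MP_f5ceca_al.UndecidableAboveW
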